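import Pool.Agent.Results.MP_8481ed_ag.SquareGrid

set_option autoImplicit false

/-!
Rectangular grids of points: the system of curves of degree `r + s - 3` through an `r × s` grid is
superabundant.
-/

namespace Pool.Agent.Y754.RG

open MvPolynomial Pool.Agent.Results.MP_8481ed_ag Pool.Agent.Results.MP_8481ed_ag.SquareGrid

variable {k : Type*} [Field k] {r s : ℕ}

/-- the grid points `(aᵢ : bⱼ : 1)` -/
def pt (a : Fin r → k) (b : Fin s → k) (x : Fin r × Fin s) : Fin 3 → k := ![a x.1, b x.2, 1]

/-- the points of the grid, indexed by `Fin (r * s)` -/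
def rgrid (a : Fin r → k) (b : Fin s → k) : Fin (r * s) → Fin 3 → k :=
  fun i => pt a b (finProdFinEquiv.symm i)

lemma rgrid_distinct {a : Fin r → k} {b : Fin s → k} (ha : Function.Injective a)
    (hb : Function.Injective b) : DistinctPoints (rgrid a b) := by
  refine ⟨?_, ?_⟩
  · intro i h
    have := congrFun h 2
    simp [rgrid, pt] at this
  · intro i j hij c hc
    have h2 := congrFun hc 2
    have h0 := congrFun hc 0
    have h1 := congrFun hc 1
    simp only [rgrid, pt, Pi.smul_apply, smul_eq_mul, Matrix.cons_val_zero, Matrix.cons_val_one,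
      Matrix.cons_val] at h2 h0 h1
    rw [mul_one] at h2
    rw [← h2, one_mul] at h0 h1
    apply hij
    apply (finProdFinEquiv (m := r) (n := s)).symm.injective
    exact Prod.ext (ha h0) (hb h1)

lemma coeff_trans_eval (u v : k) {F : MvPolynomial (Fin 3) k} {n : ℕ} (hF : F.IsHomogeneous n) :
    coeff (ex 0 0 n) (SquareGrid.trans u v F) = eval ![u, v, 1] F := by
  classical
  have hG := trans_hom u v hF
  have e1 : eval ![0, 0, 1] (SquareGrid.trans u v F) = eval ![u, v, 1] F := by
    have : (eval (![0, 0, 1] : Fin 3 → k)).comp (SquareGrid.trans u v).toRingHom = eval ![u, v, 1] := by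
      apply MvPolynomial.ringHom_ext
      · intro x; simp [SquareGrid.trans]
      · intro i; fin_cases i <;> simp [SquareGrid.trans]
    exact DFunLike.congr_fun this F
  rw [← e1, eval_eq']
  symm
  rw [Finset.sum_eq_single (ex 0 0 n)]
  · have := ex_apply 0 0 n
    simp [Fin.prod_univ_three, this.1, this.2.1]
  · intro t ht hne
    by_cases h : t 0 = 0 ∧ t 1 = 0
    · exfalso
      apply hne
      have hd := hom_deg hG ht
      have hx := ex_apply 0 0 n
      ext i
      fin_cases i
      · exact h.1.trans hx.1.symm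
      · exact h.2.trans hx.2.1.symm
      · refine Eq.trans ?_ hx.2.2.symm
        simp only [Fin.reduceFinMk]
        omega
    · rw [Fin.prod_univ_three]
      have : t 0 ≠ 0 ∨ t 1 ≠ 0 := by
        by_contra hcon
        push Not at hcon
        exact h hcon
      rcases this with h0 | h0
      · simp [h0]
      · simp [h0]
  · intro h
    rw [notMem_support_iff.1 h, zero_mul]

lemma exists_weights {a : Fin r → k} (hr : 1 ≤ r) :
    ∃ w : Fin r → k, (∀ e : ℕ, e + 1 < r → ∑ i, w i * a i ^ e = 0) ∧ w ≠ 0 := by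
  let L : (Fin r → k) →ₗ[k] (Fin (r - 1) → k) :=
    LinearMap.pi fun e => ∑ i, (a i ^ e.val) • LinearMap.proj i
  have h := LinearMap.ker_ne_bot_of_finrank_lt (f := L) (by
    rw [Module.finrank_fintype_fun_eq_card, Module.finrank_fintype_fun_eq_card, Fintype.card_fin,
      Fintype.card_fin]
    omega)
  obtain ⟨w, hw, hw0⟩ := Submodule.exists_mem_ne_zero_of_ne_bot h
  refine ⟨w, fun e he => ?_, hw0⟩
  have := congrFun (LinearMap.mem_ker.1 hw) ⟨e, by omega⟩
  simp only [L, LinearMap.pi_apply, LinearMap.sum_apply, LinearMap.smul_apply,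
    LinearMap.proj_apply, smul_eq_mul, Pi.zero_apply] at this
  rw [← this]
  exact Finset.sum_congr rfl fun i _ => mul_comm _ _

lemma lam_eval (a : Fin r → k) (b : Fin s → k) {w : Fin r → k} {w' : Fin s → k}
    (hw : ∀ e : ℕ, e + 1 < r → ∑ i, w i * a i ^ e = 0)
    (hw' : ∀ e : ℕ, e + 1 < s → ∑ i, w' i * b i ^ e = 0) {d : ℕ} (hd : d + 3 = r + s)
    {F : MvPolynomial (Fin 3) k} (hF : F.IsHomogeneous d) :
    ∑ x : Fin r × Fin s, w x.1 * w' x.2 * eval (pt a b x) F = 0 := by
  classical
  have h1 : ∀ x : Fin r × Fin s, w x.1 * w' x.2 * eval (pt a b x) F =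
      ∑ t ∈ F.support, coeff t F * ((w x.1 * a x.1 ^ t 0) * (w' x.2 * b x.2 ^ t 1)) := by
    intro x
    rw [eval_eq', Finset.mul_sum]
    refine Finset.sum_congr rfl fun t _ => ?_
    rw [Fin.prod_univ_three]
    simp only [pt, Matrix.cons_val_zero, Matrix.cons_val_one, Matrix.cons_val, one_pow, mul_one]
    ring
  rw [Finset.sum_congr rfl fun x _ => h1 x, Finset.sum_comm]
  refine Finset.sum_eq_zero fun t ht => ?_
  rw [← Finset.mul_sum]
  have h2 : ∑ x : Fin r × Fin s, (w x.1 * a x.1 ^ t 0) * (w' x.2 * b x.2 ^ t 1) =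
      (∑ i, w i * a i ^ t 0) * ∑ j, w' j * b j ^ t 1 := by
    rw [Fintype.sum_prod_type, Finset.sum_mul_sum]
  rw [h2]
  have hdt := hom_deg hF ht
  by_cases h3 : t 0 + 1 < r
  · rw [hw _ h3]; ring
  · rw [hw' (t 1) (by omega)]; ring

/-- the superabundance of the curves of degree `r + s - 3` through the grid -/
lemma super_ge (a : Fin r → k) (b : Fin s → k) (hr : 1 ≤ r) (hs : 1 ≤ s) {d : ℕ}
    (hd : d + 3 = r + s) :
    (d + 2).choose 2 + 1 ≤
      Module.finrank k (H0 (rgrid a b) ((d : ℤ), fun i => (((fun _ => 1) : Fin (r * s) → ℕ) i : ℤ)))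
        + r * s := by
  classical
  obtain ⟨w, hw, hw0⟩ := exists_weights (a := a) hr
  obtain ⟨w', hw', hw0'⟩ := exists_weights (a := b) hs
  let E : homogeneousSubmodule (Fin 3) k d →ₗ[k] (Fin r × Fin s → k) :=
    LinearMap.pi fun x => (aeval (pt a b x)).toLinearMap.comp
      (homogeneousSubmodule (Fin 3) k d).subtype
  have hE : ∀ F x, E F x = eval (pt a b x) F.1 := by
    intro F x
    simp only [E, LinearMap.pi_apply, LinearMap.comp_apply, Submodule.subtype_apply,
      AlgHom.toLinearMap_apply]
    rfl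
  have h1 := LinearMap.finrank_range_add_finrank_ker E
  have h2 : Module.finrank k (LinearMap.range E) < r * s := by
    have hlt : LinearMap.range E ≠ ⊤ := by
      intro htop
      obtain ⟨i, hi⟩ := Function.ne_iff.1 hw0
      obtain ⟨j, hj⟩ := Function.ne_iff.1 hw0'
      have : (Pi.single (i, j) 1 : Fin r × Fin s → k) ∈ LinearMap.range E := by
        rw [htop]; trivial
      obtain ⟨F, hF⟩ := this
      have h3 := lam_eval a b hw hw' hd F.2
      simp only [← hE, hF] at h3
      rw [Finset.sum_eq_single (i, j)] at h3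
      · rw [Pi.single_eq_same, mul_one] at h3
        exact (mul_ne_zero hi hj) h3
      · intro x _ hx
        rw [Pi.single_eq_of_ne hx, mul_zero]
      · simp
    have := Submodule.finrank_lt hlt
    rwa [Module.finrank_fintype_fun_eq_card, Fintype.card_prod, Fintype.card_fin,
      Fintype.card_fin] at this
  have h3 : Module.finrank k (LinearMap.ker E) ≤ Module.finrank k
      (H0 (rgrid a b) ((d : ℤ), fun i => (((fun _ => 1) : Fin (r * s) → ℕ) i : ℤ))) := by
    have : Submodule.map (homogeneousSubmodule (Fin 3) k d).subtype (LinearMap.ker E) ≤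
        H0 (rgrid a b) ((d : ℤ), fun i => (((fun _ => 1) : Fin (r * s) → ℕ) i : ℤ)) := by
      rintro _ ⟨F, hF, rfl⟩
      rw [mem_H0_coe]
      refine ⟨F.2, fun i => ?_⟩
      apply mem_pow_of_coeff (a (finProdFinEquiv.symm i).1) (b (finProdFinEquiv.symm i).2)
        (n := d) F.2
      intro e c hce he1
      obtain rfl : e = 0 := by omega
      obtain rfl : c = 0 := by omega
      have h4 := congrFun (LinearMap.mem_ker.1 hF) (finProdFinEquiv.symm i)
      rw [hE] at h4
      have h5 := coeff_trans_eval (a (finProdFinEquiv.symm i).1) (b (finProdFinEquiv.symm i).2) F.2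
      have h6 : eval ![a (finProdFinEquiv.symm i).1, b (finProdFinEquiv.symm i).2, 1] F.1 = 0 := h4
      rw [h6] at h5
      exact h5
    have h4 := Submodule.finrank_mono this
    rwa [Submodule.finrank_map_subtype_eq] at h4
  have h4 := finrank_hom_ge (k := k) d
  omega

end Pool.Agent.Y754.RG
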