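import Pool.Agent.Y754.RG.A

set_option autoImplicit false

/-!
Rectangular grids of points: fat points of multiplicity `m` at an `r × s` grid impose independent
conditions in large degrees.
-/

namespace Pool.Agent.Y754.RG

open MvPolynomial Pool.Agent.Results.MP_8481ed_ag Pool.Agent.Results.MP_8481ed_ag.SquareGrid

variable {k : Type*} [Field k] {r s : ℕ}

/-- arcs through the grid point `(aᵢ, bⱼ)` -/
noncomputable def arc (a : Fin r → k) (b : Fin s → k) (i : Fin r) (j : Fin s) (e : k) :
    MvPolynomial (Fin 2) k →ₐ[k] Polynomial k :=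
  aeval ![Polynomial.C (a i) + Polynomial.C e * Polynomial.X,
    Polynomial.C (b j) + Polynomial.X]

lemma arc_pow (a : Fin r → k) (b : Fin s → k) {f : MvPolynomial (Fin 3) k} (i : Fin r) (j : Fin s)
    (e : k) {m : ℕ} (hf : f ∈ pointIdeal (pt a b (i, j)) ^ m) :
    Polynomial.X ^ m ∣ arc a b i j e (deh f) := by
  have h1 : Ideal.map ((arc a b i j e).comp deh) (pointIdeal (pt a b (i, j))) ≤
      Ideal.span {Polynomial.X} := by
    rw [pointIdeal, Ideal.map_span, Ideal.span_le]
    rintro _ ⟨_, ⟨⟨u, v⟩, rfl⟩, rfl⟩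
    rw [SetLike.mem_coe, Ideal.mem_span_singleton, Polynomial.X_dvd_iff,
      Polynomial.coeff_zero_eq_eval_zero]
    fin_cases u <;> fin_cases v <;> simp [arc, deh, pt] <;> ring
  have h2 := Ideal.mem_map_of_mem ((arc a b i j e).comp deh) hf
  rw [Ideal.map_pow] at h2
  have h3 := Ideal.pow_right_mono h1 m h2
  rw [Ideal.span_singleton_pow, Ideal.mem_span_singleton] at h3
  exact h3

/-- the product of the lines `x = aᵢ` -/
noncomputable def PF (a : Fin r → k) : MvPolynomial (Fin 2) k := ∏ l, (X 0 - C (a l))

/-- the product of the lines `y = bⱼ` -/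
noncomputable def PG (b : Fin s → k) : MvPolynomial (Fin 2) k := ∏ l, (X 1 - C (b l))

/-- the cofactor of `PF` along an arc -/
noncomputable def UU (a : Fin r → k) (i : Fin r) (e : k) : Polynomial k :=
  Polynomial.C e * ∏ l ∈ Finset.univ \ {i}, (Polynomial.C (a i - a l) + Polynomial.C e * Polynomial.X)

/-- the cofactor of `PG` along an arc -/
noncomputable def VV (b : Fin s → k) (j : Fin s) : Polynomial k :=
  ∏ l ∈ Finset.univ \ {j}, (Polynomial.C (b j - b l) + Polynomial.X)

/-- the derivative of the product at `aᵢ` -/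
noncomputable def dv (a : Fin r → k) (i : Fin r) : k := ∏ l ∈ Finset.univ \ {i}, (a i - a l)

lemma dv_ne {a : Fin r → k} (ha : Function.Injective a) (i : Fin r) : dv a i ≠ 0 := by
  rw [dv, Finset.prod_ne_zero_iff]
  intro l hl
  simp only [Finset.mem_sdiff, Finset.mem_univ, Finset.mem_singleton, true_and] at hl
  exact sub_ne_zero.2 (fun h => hl (ha h).symm)

lemma UU_zero (a : Fin r → k) (i : Fin r) (e : k) : (UU a i e).coeff 0 = e * dv a i := by
  rw [Polynomial.coeff_zero_eq_eval_zero, UU, Polynomial.eval_mul, Polynomial.eval_C,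
    Polynomial.eval_prod, dv]
  congr 1
  exact Finset.prod_congr rfl fun l _ => by simp

lemma VV_zero (b : Fin s → k) (j : Fin s) : (VV b j).coeff 0 = dv b j := by
  rw [Polynomial.coeff_zero_eq_eval_zero, VV, Polynomial.eval_prod, dv]
  exact Finset.prod_congr rfl fun l _ => by simp

lemma arc_PF (a : Fin r → k) (b : Fin s → k) (i : Fin r) (j : Fin s) (e : k) :
    arc a b i j e (PF a) = Polynomial.X * UU a i e := by
  rw [PF, map_prod, Finset.prod_eq_mul_prod_sdiff_singleton_of_mem (Finset.mem_univ i), UU,
    ← mul_assoc]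
  congr 1
  · simp [arc]
  · apply Finset.prod_congr rfl
    intro l _
    simp [arc]
    ring

lemma arc_PG (a : Fin r → k) (b : Fin s → k) (i : Fin r) (j : Fin s) (e : k) :
    arc a b i j e (PG b) = Polynomial.X * VV b j := by
  rw [PG, map_prod, Finset.prod_eq_mul_prod_sdiff_singleton_of_mem (Finset.mem_univ j), VV]
  congr 1
  · simp [arc]
  · apply Finset.prod_congr rfl
    intro l _
    simp [arc]
    ring

/-- double Vandermonde -/
lemma vander {n : ℕ} {a : Fin n → k} (ha : Function.Injective a) {v : Fin n → k}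
    (h : ∀ i, ∑ t : Fin n, v t * a i ^ t.val = 0) : v = 0 := by
  apply Matrix.eq_zero_of_mulVec_eq_zero (M := Matrix.vandermonde a)
  · exact Matrix.det_vandermonde_ne_zero_iff.2 ha
  · ext i
    rw [Matrix.mulVec, dotProduct, Pi.zero_apply, ← h i]
    refine Finset.sum_congr rfl fun t _ => ?_
    rw [Matrix.vandermonde_apply, mul_comm]

lemma vander2 {a : Fin r → k} {b : Fin s → k} (ha : Function.Injective a)
    (hb : Function.Injective b) {v : Fin r × Fin s → k}
    (h : ∀ i j, ∑ x : Fin r × Fin s, v x * (a i ^ x.1.val * b j ^ x.2.val) = 0) (x) : v x = 0 := by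
  have h1 : ∀ i, (fun t : Fin s => ∑ u : Fin r, v (u, t) * a i ^ u.val) = 0 := by
    intro i
    apply vander hb
    intro j
    rw [← h i j, Fintype.sum_prod_type, Finset.sum_comm]
    refine Finset.sum_congr rfl fun t _ => ?_
    rw [Finset.sum_mul]
    exact Finset.sum_congr rfl fun u _ => by ring
  have h2 : ∀ t : Fin s, (fun u : Fin r => v (u, t)) = 0 := by
    intro t
    apply vander ha
    intro i
    exact congrFun (h1 i) t
  exact congrFun (h2 x.2) x.1

/-- the basis of the complement of the forms with multiplicity `m` -/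
noncomputable def bas (a : Fin r → k) (b : Fin s → k) (m : ℕ) (q : Idx m × (Fin r × Fin s)) :
    MvPolynomial (Fin 2) k :=
  PF a ^ q.1.2.val * PG b ^ (q.1.1.val - q.1.2.val) * (X 0 ^ q.2.1.val * X 1 ^ q.2.2.val)

lemma arc_bas (a : Fin r → k) (b : Fin s → k) (m : ℕ) (q : Idx m × (Fin r × Fin s)) (i : Fin r)
    (j : Fin s) (e : k) :
    arc a b i j e (bas a b m q) = Polynomial.X ^ q.1.1.val *
      (UU a i e ^ q.1.2.val * VV b j ^ (q.1.1.val - q.1.2.val) *
        ((Polynomial.C (a i) + Polynomial.C e * Polynomial.X) ^ q.2.1.val *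
          (Polynomial.C (b j) + Polynomial.X) ^ q.2.2.val)) := by
  have h1 : Polynomial.X ^ q.1.1.val = (Polynomial.X : Polynomial k) ^ q.1.2.val *
      Polynomial.X ^ (q.1.1.val - q.1.2.val) := by
    rw [← pow_add]
    congr 1
    have := q.1.2.2
    omega
  rw [bas, map_mul, map_mul, map_pow, map_pow, arc_PF, arc_PG, map_mul, map_pow, map_pow, h1,
    mul_pow, mul_pow]
  have e0 : arc a b i j e (X 0) = Polynomial.C (a i) + Polynomial.C e * Polynomial.X := by
    simp [arc]
  have e1 : arc a b i j e (X 1) = Polynomial.C (b j) + Polynomial.X := by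
    simp [arc]
  rw [e0, e1]
  ring

lemma low_coeff (a : Fin r → k) (b : Fin s → k) (m : ℕ) (q : Idx m × (Fin r × Fin s)) (i : Fin r)
    (j : Fin s) (e : k) :
    (arc a b i j e (bas a b m q)).coeff q.1.1.val =
      e ^ q.1.2.val * (dv a i ^ q.1.2.val * dv b j ^ (q.1.1.val - q.1.2.val) *
        (a i ^ q.2.1.val * b j ^ q.2.2.val)) := by
  rw [arc_bas, Polynomial.coeff_X_pow_mul', if_pos le_rfl, Nat.sub_self,
    Polynomial.coeff_zero_eq_eval_zero]
  simp only [Polynomial.eval_mul, Polynomial.eval_pow, Polynomial.eval_add, Polynomial.eval_C,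
    Polynomial.eval_X, mul_zero, add_zero, ← Polynomial.coeff_zero_eq_eval_zero, UU_zero, VV_zero,
    mul_pow]
  ring

lemma low_coeff_lt (a : Fin r → k) (b : Fin s → k) (m : ℕ) (q : Idx m × (Fin r × Fin s))
    (i : Fin r) (j : Fin s) (e : k) {R : ℕ} (hR : R < q.1.1.val) :
    (arc a b i j e (bas a b m q)).coeff R = 0 := by
  rw [arc_bas, Polynomial.coeff_X_pow_mul', if_neg (by omega)]

/-- linear independence modulo the polynomials of multiplicity `m` at the grid points -/
lemma indep [Infinite k] {a : Fin r → k} {b : Fin s → k} (ha : Function.Injective a)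
    (hb : Function.Injective b) {m : ℕ} {c : Idx m × (Fin r × Fin s) → k}
    (h : ∀ i j e, Polynomial.X ^ m ∣ arc a b i j e (∑ q, c q • bas a b m q)) : c = 0 := by
  classical
  have main : ∀ R : ℕ, ∀ q : Idx m × (Fin r × Fin s), q.1.1.val = R → c q = 0 := by
    intro R
    induction R using Nat.strong_induction_on with
    | _ R ih =>
      rintro ⟨⟨R', A0⟩, x0⟩ hq
      simp only at hq
      subst hq
      -- the coefficient of order `R'`
      have h1 : ∀ i j e, ∑ A : Fin (R'.val + 1), e ^ A.val * ∑ x : Fin r × Fin s,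
          c (⟨R', A⟩, x) * (dv a i ^ A.val * dv b j ^ (R'.val - A.val) *
            (a i ^ x.1.val * b j ^ x.2.val)) = 0 := by
        intro i j e
        have h2 := Polynomial.X_pow_dvd_iff.1 (h i j e) R'.val R'.2
        rw [map_sum, Polynomial.finsetSum_coeff] at h2
        simp only [map_smul, Polynomial.coeff_smul, smul_eq_mul] at h2
        rw [Fintype.sum_prod_type, Fintype.sum_sigma, Finset.sum_eq_single R'] at h2
        · rw [← h2]
          refine Finset.sum_congr rfl fun A _ => ?_
          rw [Finset.mul_sum]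
          refine Finset.sum_congr rfl fun x _ => ?_
          have h3 := low_coeff a b m (⟨R', A⟩, x) i j e
          simp only at h3
          rw [h3]
          ring
        · intro R'' _ hne
          refine Finset.sum_eq_zero fun A _ => Finset.sum_eq_zero fun x _ => ?_
          rcases lt_or_gt_of_ne (fun hh => hne (Fin.ext hh) : R''.val ≠ R'.val) with hlt | hgt
          · rw [ih R''.val hlt (⟨R'', A⟩, x) rfl, zero_mul]
          · have h3 := low_coeff_lt a b m (⟨R'', A⟩, x) i j e (R := R'.val) hgt
            rw [h3, mul_zero]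
        · simp
      -- polynomial in `e`
      have h4 : ∀ i j, ∀ A : Fin (R'.val + 1), ∑ x : Fin r × Fin s,
          c (⟨R', A⟩, x) * (dv a i ^ A.val * dv b j ^ (R'.val - A.val) *
            (a i ^ x.1.val * b j ^ x.2.val)) = 0 := by
        intro i j A
        have h5 : (∑ A : Fin (R'.val + 1), Polynomial.C (∑ x : Fin r × Fin s,
            c (⟨R', A⟩, x) * (dv a i ^ A.val * dv b j ^ (R'.val - A.val) *
              (a i ^ x.1.val * b j ^ x.2.val))) * Polynomial.X ^ A.val : Polynomial k) = 0 := by
          apply Polynomial.funext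
          intro e
          rw [Polynomial.eval_finsetSum, Polynomial.eval_zero, ← h1 i j e]
          refine Finset.sum_congr rfl fun A _ => ?_
          rw [Polynomial.eval_mul, Polynomial.eval_C, Polynomial.eval_pow, Polynomial.eval_X,
            mul_comm]
        have h6 := congrArg (fun p : Polynomial k => p.coeff A.val) h5
        simp only [Polynomial.finsetSum_coeff, Polynomial.coeff_C_mul, Polynomial.coeff_X_pow,
          Polynomial.coeff_zero] at h6
        rw [Finset.sum_eq_single A] at h6
        · simpa using h6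
        · intro B _ hB
          rw [if_neg (fun hh => hB (Fin.ext hh.symm)), mul_zero]
        · simp
      have h7 : ∀ i j, ∑ x : Fin r × Fin s,
          c (⟨R', A0⟩, x) * (a i ^ x.1.val * b j ^ x.2.val) = 0 := by
        intro i j
        have h8 := h4 i j A0
        have h9 : (dv a i ^ A0.val * dv b j ^ (R'.val - A0.val)) * ∑ x : Fin r × Fin s,
            c (⟨R', A0⟩, x) * (a i ^ x.1.val * b j ^ x.2.val) = 0 := by
          rw [← h8, Finset.mul_sum]
          exact Finset.sum_congr rfl fun x _ => by ring
        exact (mul_eq_zero.1 h9).resolve_left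
          (mul_ne_zero (pow_ne_zero _ (dv_ne ha i)) (pow_ne_zero _ (dv_ne hb j)))
      exact vander2 ha hb (v := fun x => c (⟨R', A0⟩, x)) h7 x0
  funext q
  exact main _ q rfl

end Pool.Agent.Y754.RG
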