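import Pool.Agent.Y754.RG.B

set_option autoImplicit false

/-!
Rectangular grids of points: dimension count and the main theorem.
-/

namespace Pool.Agent.Y754.RG

open MvPolynomial Pool.Agent.Results.MP_8481ed_ag Pool.Agent.Results.MP_8481ed_ag.SquareGrid

variable {k : Type*} [Field k] {r s : ℕ}

/-- the monomials of degree at most `d` -/
noncomputable def mono (k : Type*) [Field k] (d : ℕ) (x : Idx (d + 1)) : MvPolynomial (Fin 2) k :=
  monomial (Finsupp.single 0 x.2.val + Finsupp.single 1 (x.1.val - x.2.val)) 1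

lemma mem_span_mono {d : ℕ} {γ : MvPolynomial (Fin 2) k} (hγ : γ.totalDegree ≤ d) :
    γ ∈ Submodule.span k (Set.range (mono k d)) := by
  classical
  rw [γ.as_sum]
  apply Submodule.sum_mem
  intro t ht
  have hd : t 0 + t 1 ≤ d := by
    have := le_totalDegree ht
    rw [Finsupp.sum_fintype _ _ (by simp), Fin.sum_univ_two] at this
    exact this.trans hγ
  have : (monomial t (coeff t γ) : MvPolynomial (Fin 2) k) =
      coeff t γ • mono k d ⟨⟨t 0 + t 1, by omega⟩, ⟨t 0, by simp only; omega⟩⟩ := by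
    have ht' : (Finsupp.single 0 (t 0) + Finsupp.single 1 (t 0 + t 1 - t 0) : Fin 2 →₀ ℕ) = t := by
      ext i
      fin_cases i <;> simp
    simp only [mono]
    rw [ht', smul_monomial, smul_eq_mul, mul_one]
  rw [this]
  exact Submodule.smul_mem _ _ (Submodule.subset_span ⟨_, rfl⟩)

lemma td_PF (a : Fin r → k) : (PF a).totalDegree ≤ r := by
  refine (totalDegree_finset_prod _ _).trans ?_
  refine (Finset.sum_le_sum fun l _ => (td_lin 0 (a l)).le).trans ?_
  simp

lemma td_PG (b : Fin s → k) : (PG b).totalDegree ≤ s := by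
  refine (totalDegree_finset_prod _ _).trans ?_
  refine (Finset.sum_le_sum fun l _ => (td_lin 1 (b l)).le).trans ?_
  simp

lemma td_bas (a : Fin r → k) (b : Fin s → k) (m : ℕ) (q : Idx m × (Fin r × Fin s)) :
    (bas a b m q).totalDegree ≤
      q.1.2.val * r + (q.1.1.val - q.1.2.val) * s + (q.2.1.val + q.2.2.val) := by
  rw [bas]
  refine (totalDegree_mul _ _).trans (add_le_add ((totalDegree_mul _ _).trans (add_le_add ?_ ?_))
    ((totalDegree_mul _ _).trans (add_le_add ?_ ?_)))
  · exact (totalDegree_pow _ _).trans (Nat.mul_le_mul_left _ (td_PF a))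
  · exact (totalDegree_pow _ _).trans (Nat.mul_le_mul_left _ (td_PG b))
  · exact (totalDegree_pow _ _).trans (by rw [totalDegree_X, mul_one])
  · exact (totalDegree_pow _ _).trans (by rw [totalDegree_X, mul_one])

/-- the fat points impose independent conditions in large degree -/
theorem finrank_le [Infinite k] {a : Fin r → k} {b : Fin s → k} (ha : Function.Injective a)
    (hb : Function.Injective b) {m d : ℕ}
    (hd : ∀ A B : ℕ, A + B + 1 ≤ m → A * r + B * s + r + s ≤ d + 2) :
    Module.finrank k (H0 (rgrid a b) ((d : ℤ), fun i => (((fun _ => m) : Fin (r * s) → ℕ) i : ℤ)))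
      + r * s * (m + 1).choose 2 ≤ (d + 2).choose 2 := by
  classical
  set W := H0 (rgrid a b) ((d : ℤ), fun i => (((fun _ => m) : Fin (r * s) → ℕ) i : ℤ)) with hW
  have hWmem : ∀ f ∈ W, f.IsHomogeneous d ∧ ∀ x, f ∈ pointIdeal (pt a b x) ^ m := by
    intro f hf
    rw [hW, mem_H0_coe] at hf
    refine ⟨hf.1, fun x => ?_⟩
    have := hf.2 (finProdFinEquiv x)
    rwa [rgrid, Equiv.symm_apply_apply] at this
  set P := Submodule.span k (Set.range (mono k d)) with hP
  have hPfin : Module.Finite k P := Module.Finite.span_of_finite k (Set.finite_range _)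
  have hPle : Module.finrank k P ≤ (d + 2).choose 2 := by
    have := finrank_range_le_card (R := k) (mono k d)
    rwa [card_idx] at this
  -- the image of `W`
  set W' := Submodule.map (deh : MvPolynomial (Fin 3) k →ₐ[k] _).toLinearMap W with hW'
  have hW'P : W' ≤ P := by
    rintro _ ⟨f, hf, rfl⟩
    exact mem_span_mono (deh_deg (hWmem f hf).1)
  have hinj : Function.Injective
      ((deh : MvPolynomial (Fin 3) k →ₐ[k] _).toLinearMap.domRestrict W) := by
    rw [← LinearMap.ker_eq_bot, LinearMap.ker_eq_bot']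
    rintro ⟨f, hf⟩ h
    have : deh f = 0 := h
    ext1
    exact deh_inj (hWmem f hf).1 this
  have h4 := LinearMap.finrank_range_of_inj hinj
  rw [LinearMap.range_domRestrict] at h4
  -- the complement
  let Θ : (Idx m × (Fin r × Fin s) → k) →ₗ[k] MvPolynomial (Fin 2) k :=
    Fintype.linearCombination k (bas a b m)
  have hΘ : ∀ c, Θ c = ∑ q, c q • bas a b m q := fun c => Fintype.linearCombination_apply k _ c
  have hΘP : LinearMap.range Θ ≤ P := by
    rintro _ ⟨c, rfl⟩
    rw [hΘ]
    refine Submodule.sum_mem _ fun q _ => Submodule.smul_mem _ _ (mem_span_mono ?_)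
    refine (td_bas a b m q).trans ?_
    have h1 := hd q.1.2.val (q.1.1.val - q.1.2.val) (by
      have := q.1.1.2
      have := q.1.2.2
      omega)
    have := q.2.1.2
    have := q.2.2.2
    omega
  have hΘ0 : ∀ c, Θ c ∈ W' → c = 0 := by
    intro c hc
    obtain ⟨f, hf, he⟩ := hc
    apply indep ha hb (m := m)
    intro i j e
    rw [← hΘ, ← he, AlgHom.toLinearMap_apply]
    exact arc_pow a b i j e ((hWmem f hf).2 (i, j))
  have hΘinj : Function.Injective Θ := by
    rw [← LinearMap.ker_eq_bot, LinearMap.ker_eq_bot']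
    intro c hc
    exact hΘ0 c (by rw [hc]; exact Submodule.zero_mem _)
  have h5 := LinearMap.finrank_range_of_inj hΘinj
  rw [Module.finrank_fintype_fun_eq_card, Fintype.card_prod, Fintype.card_prod, card_idx,
    Fintype.card_fin, Fintype.card_fin] at h5
  have hdis : W' ⊓ LinearMap.range Θ = ⊥ := by
    rw [Submodule.eq_bot_iff]
    rintro g ⟨hg1, c, rfl⟩
    rw [hΘ0 c hg1, map_zero]
  have fW : Module.Finite k W' := Submodule.finiteDimensional_of_le hW'P
  have fΘ : Module.Finite k (LinearMap.range Θ) := Submodule.finiteDimensional_of_le hΘP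
  have h6 := Submodule.finrank_sup_add_finrank_inf_eq W' (LinearMap.range Θ)
  rw [hdis, finrank_bot, add_zero] at h6
  have h7 : Module.finrank k ↥(W' ⊔ LinearMap.range Θ) ≤ Module.finrank k P :=
    Submodule.finrank_mono (sup_le hW'P hΘP)
  have h8 : r * s * (m + 1).choose 2 = (m + 1).choose 2 * (r * s) := by ring
  have h9 : Module.finrank k W' = Module.finrank k W := h4
  rw [h8, ← h5, ← h9]
  calc Module.finrank k W' + Module.finrank k (LinearMap.range Θ)
      = Module.finrank k ↥(W' ⊔ LinearMap.range Θ) := h6.symm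
    _ ≤ Module.finrank k P := h7
    _ ≤ _ := hPle

lemma deg_ok {r s m : ℕ} (hr : 4 ≤ r) (hs : 4 ≤ s) (hm : 2 ≤ m) (A B : ℕ) (h : A + B + 1 ≤ m) :
    A * r + B * s + r + s ≤ m * (r + s - 3) + 2 := by
  obtain ⟨r', rfl⟩ := Nat.exists_eq_add_of_le hr
  obtain ⟨s', rfl⟩ := Nat.exists_eq_add_of_le hs
  obtain ⟨t, rfl⟩ := Nat.exists_eq_add_of_le h
  have e : 4 + r' + (4 + s') - 3 = r' + s' + 5 := by omega
  rw [e]
  nlinarith [Nat.zero_le (A * s'), Nat.zero_le (B * r'), Nat.zero_le (t * r'), Nat.zero_le (t * s')]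

/-- **Main theorem.** -/
theorem main [Infinite k] {a : Fin r → k} {b : Fin s → k} (hr : 4 ≤ r) (hs : 4 ≤ s)
    (ha : Function.Injective a) (hb : Function.Injective b) :
    DistinctPoints (rgrid a b) ∧
      Special (rgrid a b) (((r + s : ℕ) : ℤ) - 3, fun _ => 1) ∧
      ∀ m : ℕ, 2 ≤ m →
        h1 (rgrid a b) (m • ((((r + s : ℕ) : ℤ) - 3, fun _ => 1) : Cls (r * s))) = 0 := by
  have hD : ((((r + s : ℕ) : ℤ) - 3, fun _ => 1) : Cls (r * s)) =
      (((r + s - 3 : ℕ) : ℤ), fun i => (((fun _ => 1) : Fin (r * s) → ℕ) i : ℤ)) := by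
    ext i
    · simp only
      omega
    · simp
  refine ⟨rgrid_distinct ha hb, ⟨?_, ?_⟩, ?_⟩
  · have h := super_ge a b (by omega) (by omega) (d := r + s - 3) (by omega)
    rw [hD]
    unfold h0
    have h2 : r * s < (r + s - 3 + 2).choose 2 + 1 := by
      obtain ⟨r', rfl⟩ := Nat.exists_eq_add_of_le hr
      obtain ⟨s', rfl⟩ := Nat.exists_eq_add_of_le hs
      have e : 4 + r' + (4 + s') - 3 + 2 = (r' + s' + 6) + 1 := by omega
      rw [e]
      have := key_choose (r' + s' + 6)
      have h3 : (((4 + r') * (4 + s') : ℕ) : ℤ) < ((r' + s' + 6 + 1).choose 2 : ℤ) + 1 := by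
        push_cast at this ⊢
        nlinarith [sq_nonneg ((r' : ℤ) - s')]
      exact_mod_cast h3
    omega
  · have h := super_ge a b (by omega) (by omega) (d := r + s - 3) (by omega)
    rw [hD, h1_eq_superabundance]
    have e' : ∑ i : Fin (r * s), ((((fun _ => 1) : Fin (r * s) → ℕ) i + 1).choose 2 : ℤ) =
        ((r * s : ℕ) : ℤ) := by
      simp
    rw [e']
    have hz := (Nat.cast_le (α := ℤ)).2 h
    rw [Nat.cast_add, Nat.cast_add, Nat.cast_one] at hz
    linarith
  · intro m hm
    have hmD : (m • ((((r + s : ℕ) : ℤ) - 3, fun _ => 1) : Cls (r * s))) =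
        (((m * (r + s - 3) : ℕ) : ℤ), fun i => (((fun _ => m) : Fin (r * s) → ℕ) i : ℤ)) := by
      rw [hD]
      ext i <;> simp
    rw [hmD, h1_eq_superabundance]
    have h1 := finrank_le ha hb (m := m) (d := m * (r + s - 3)) (deg_ok hr hs hm)
    have e' : ∑ i : Fin (r * s), ((((fun _ => m) : Fin (r * s) → ℕ) i + 1).choose 2 : ℤ) =
        ((r * s * (m + 1).choose 2 : ℕ) : ℤ) := by
      simp
    have e'' : ∑ i : Fin (r * s), (((fun _ => m) : Fin (r * s) → ℕ) i + 1).choose 2 =
        r * s * (m + 1).choose 2 := by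
      simp
    have h2 := H0_ge (k := k) (fun i : Fin (r * s) => a (finProdFinEquiv.symm i).1)
      (fun i : Fin (r * s) => b (finProdFinEquiv.symm i).2) (m * (r + s - 3)) (fun _ => m)
    rw [e''] at h2
    have h3 : (m * (r + s - 3) + 2).choose 2 ≤ Module.finrank k (H0 (rgrid a b)
        (((m * (r + s - 3) : ℕ) : ℤ), fun i => (((fun _ => m) : Fin (r * s) → ℕ) i : ℤ))) +
          r * s * (m + 1).choose 2 := h2
    rw [e']
    have hz := (Nat.cast_le (α := ℤ)).2 h1
    have hz2 := (Nat.cast_le (α := ℤ)).2 h3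
    rw [Nat.cast_add] at hz hz2
    linarith

end Pool.Agent.Y754.RG
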